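import Mathlib

set_option autoImplicit false

open Module

namespace Pool.Agent.Helper82.Egg

/-- the algebra statement (skeleton MODULE D) as a hypothesis -/
def EggertHyp : Prop :=
  ∀ (p : ℕ) [Fact p.Prime] (A : Type) [CommRing A] [Algebra (ZMod p) A] [Finite A]
    (𝔪 : Ideal A), (∃ N : ℕ, 𝔪 ^ N = ⊥) →
    (∀ r : A, ∃ c : ZMod p, r - algebraMap (ZMod p) A c ∈ 𝔪) →
    ∀ (Z : Ideal A), (∀ a, a ∈ Z ↔ a ^ p = 0) →
    p * finrank (ZMod p) A + 1 ≤
      p * finrank (ZMod p) (Z.restrictScalars (ZMod p)) + finrank (ZMod p) A + p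

/-- monoid form of the combinatorial statement -/
def MonForm (n : ℕ) : Prop :=
  ∀ (M : Type) [CommMonoid M] [Finite M] (z : M),
    (∀ x : M, z * x = z) → (∀ x : M, x ≠ 1 → ∃ k : ℕ, x ^ k = z) →
    n * {y : M | y ≠ 1 ∧ y ≠ z ∧ ∃ x : M, x ^ n = y}.ncard ≤ {y : M | y ≠ 1 ∧ y ≠ z}.ncard

section monalg

variable {p : ℕ} [hp : Fact p.Prime] {M : Type} [CommMonoid M] (z : M)

/-- the ideal generated by the zero -/
noncomputable def I0 (p : ℕ) [Fact p.Prime] : Ideal (MonoidAlgebra (ZMod p) M) :=
  Ideal.span {MonoidAlgebra.single z 1}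

theorem mem_I0 (hz : ∀ x : M, z * x = z) {f : MonoidAlgebra (ZMod p) M} (hf : f ∈ I0 z p) :
    ∃ c : ZMod p, f = MonoidAlgebra.single z c := by
  rw [I0, Ideal.mem_span_singleton'] at hf
  obtain ⟨g, rfl⟩ := hf
  induction g using MonoidAlgebra.induction_on with
  | of x => exact ⟨1, by simp [MonoidAlgebra.of_apply, MonoidAlgebra.single_mul_single, mul_comm x z, hz]⟩
  | add f g hf hg =>
    obtain ⟨c, hc⟩ := hf
    obtain ⟨d, hd⟩ := hg
    exact ⟨c + d, by rw [add_mul, hc, hd, ← MonoidAlgebra.single_add]⟩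
  | smul r f hf =>
    obtain ⟨c, hc⟩ := hf
    exact ⟨r * c, by rw [smul_mul_assoc, hc, MonoidAlgebra.smul_single, smul_eq_mul]⟩

/-- the contracted monoid algebra -/
abbrev Alg (p : ℕ) [Fact p.Prime] : Type := MonoidAlgebra (ZMod p) M ⧸ I0 z p

/-- image of a monoid element -/
noncomputable def el (p : ℕ) [Fact p.Prime] (x : M) : Alg z p :=
  Ideal.Quotient.mk (I0 z p) (MonoidAlgebra.single x 1)

theorem el_pow (x : M) (k : ℕ) : (el z p x) ^ k = el z p (x ^ k) := by
  simp [el, ← map_pow, MonoidAlgebra.single_pow]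

theorem el_z : el z p z = 0 := by
  rw [el, Ideal.Quotient.eq_zero_iff_mem]
  exact Ideal.subset_span rfl

theorem el_one : el z p 1 = 1 := rfl

theorem local_prop (hnil : ∀ x : M, x ≠ 1 → ∃ k : ℕ, x ^ k = z) (r : Alg z p) :
    ∃ c : ZMod p, r - algebraMap (ZMod p) (Alg z p) c ∈ nilradical (Alg z p) := by
  obtain ⟨f, rfl⟩ := Ideal.Quotient.mk_surjective r
  induction f using MonoidAlgebra.induction_on with
  | of x =>
    by_cases hx : x = 1
    · refine ⟨1, ?_⟩
      subst hx
      have h0 : (Ideal.Quotient.mk (I0 z p)) (MonoidAlgebra.of (ZMod p) M 1) -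
          algebraMap (ZMod p) (Alg z p) 1 = 0 := by
        rw [map_one, map_one, map_one, sub_self]
      rw [h0]
      exact Ideal.zero_mem _
    · refine ⟨0, ?_⟩
      obtain ⟨k, hk⟩ := hnil x hx
      rw [map_zero, sub_zero, mem_nilradical]
      refine ⟨k, ?_⟩
      have h := el_pow (p := p) z x k
      rw [hk, el_z] at h
      exact h
  | add f g hf hg =>
    obtain ⟨c, hc⟩ := hf
    obtain ⟨d, hd⟩ := hg
    refine ⟨c + d, ?_⟩
    have := Ideal.add_mem _ hc hd
    rw [map_add, map_add]
    convert this using 1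
    ring
  | smul a f hf =>
    obtain ⟨c, hc⟩ := hf
    refine ⟨a * c, ?_⟩
    have := Ideal.mul_mem_left (nilradical (Alg z p)) (algebraMap (ZMod p) (Alg z p) a) hc
    convert this using 1
    rw [mul_sub, map_mul, Algebra.smul_def, map_mul]
    rfl

end monalg

section main

variable {p : ℕ} [hp : Fact p.Prime] {M : Type} [CommMonoid M] [Finite M] (z : M)

instance : Module.Finite (ZMod p) (MonoidAlgebra (ZMod p) M) :=
  Module.Finite.of_basis (MonoidAlgebra.basis M (ZMod p))

instance : Finite (MonoidAlgebra (ZMod p) M) := Module.finite_of_finite (ZMod p)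

instance : Finite (Alg z p) := Finite.of_surjective _ (Ideal.Quotient.mk_surjective (I := I0 z p))

omit [CommMonoid M] [Finite M] in
theorem finrank_B : finrank (ZMod p) (MonoidAlgebra (ZMod p) M) = Nat.card M :=
  Module.finrank_eq_nat_card_basis (MonoidAlgebra.basis M (ZMod p))

theorem finrank_A_le : finrank (ZMod p) (Alg z p) + 1 ≤ Nat.card M := by
  have h1 := Submodule.finrank_quotient_add_finrank ((I0 z p).restrictScalars (ZMod p))
  have h2 : 0 < finrank (ZMod p) ((I0 z p).restrictScalars (ZMod p)) := by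
    rw [Module.finrank_pos_iff]
    rw [Submodule.nontrivial_iff_ne_bot]
    intro h
    have h3 : (MonoidAlgebra.single z 1 : MonoidAlgebra (ZMod p) M) ∈
        (I0 z p).restrictScalars (ZMod p) := Ideal.subset_span rfl
    rw [h, Submodule.mem_bot] at h3
    have := congrArg (fun f => f.coeff z) h3
    simp at this
  rw [finrank_B] at h1
  have h4 : finrank (ZMod p) (MonoidAlgebra (ZMod p) M ⧸ (I0 z p).restrictScalars (ZMod p)) =
      finrank (ZMod p) (Alg z p) := rfl
  omega

theorem monForm_prime (H : EggertHyp) : MonForm p := by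
  intro M _ _ z hz hnil
  classical
  by_cases h1z : (1 : M) = z
  · have : {y : M | y ≠ 1 ∧ y ≠ z ∧ ∃ x : M, x ^ p = y} = ∅ := by
      ext y
      simp only [Set.mem_ofPred_eq, Set.mem_empty_iff_false, iff_false, not_and]
      intro hy _
      exact absurd (by rw [← one_mul y, h1z, hz]) hy
    rw [this]; simp
  set T : Set M := {y : M | y ≠ 1 ∧ y ≠ z ∧ ∃ x : M, x ^ p = y} with hT
  have hnt : Nontrivial (Alg z p) := by
    apply Ideal.Quotient.nontrivial_iff.mpr
    intro htop
    have h3 : (1 : MonoidAlgebra (ZMod p) M) ∈ I0 z p := by rw [htop]; trivial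
    obtain ⟨c, hc⟩ := mem_I0 z hz h3
    have := congrArg (fun f => f.coeff 1) hc
    simp [MonoidAlgebra.one_def, Ne.symm h1z] at this
  have : CharP (Alg z p) p := charP_of_injective_algebraMap (algebraMap (ZMod p) (Alg z p)).injective p
  let Z : Ideal (Alg z p) := RingHom.ker (frobenius (Alg z p) p)
  have hZ : ∀ a, a ∈ Z ↔ a ^ p = 0 := fun a => by
    simp [Z, RingHom.mem_ker, frobenius_def]
  have hmain := H p (Alg z p) (nilradical (Alg z p))
    (IsNoetherianRing.isNilpotent_nilradical (Alg z p)) (local_prop z hnil) Z hZ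
  -- the roots
  have hroot : ∀ y : T, ∃ x : M, x ^ p = y := fun y => y.2.2.2
  choose r hr using hroot
  let v : Option T → Alg z p := fun o => o.elim 1 (fun y => el z p (r y))
  let w : Option T → M := fun o => o.elim 1 (fun y => (y : M))
  have hw : Function.Injective w := by
    intro a b hab
    rcases a with _ | a <;> rcases b with _ | b
    · rfl
    · exact absurd hab.symm b.2.1
    · exact absurd hab a.2.1
    · exact congrArg some (Subtype.ext hab)
  have hwz : ∀ o, w o ≠ z := by
    intro o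
    rcases o with _ | a
    · exact h1z
    · exact a.2.2.1
  have hvp : ∀ o, v o ^ p = el z p (w o) := by
    intro o
    rcases o with _ | a
    · simp [v, w, el_one]
    · simp only [v, w, Option.elim]
      rw [el_pow, hr]
  have : Fintype T := Fintype.ofFinite T
  have hli : LinearIndependent (ZMod p)
      (fun o => (Submodule.Quotient.mk (v o) : Alg z p ⧸ Z.restrictScalars (ZMod p))) := by
    rw [Fintype.linearIndependent_iff]
    intro g hg
    have h1 : (Submodule.Quotient.mk (∑ o, g o • v o) :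
        Alg z p ⧸ Z.restrictScalars (ZMod p)) = 0 := by
      rw [← hg]
      rw [← Submodule.mkQ_apply, map_sum]
      rfl
    rw [Submodule.Quotient.mk_eq_zero, Submodule.restrictScalars_mem, hZ] at h1
    have h2 : (∑ o, g o • v o) ^ p = ∑ o, g o • el z p (w o) := by
      rw [sum_pow_char]
      refine Finset.sum_congr rfl fun o _ => ?_
      rw [smul_pow, ZMod.pow_card, hvp]
    rw [h2] at h1
    have h3 : ∑ o, g o • el z p (w o) = Ideal.Quotient.mk (I0 z p)
        (∑ o, MonoidAlgebra.single (w o) (g o)) := by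
      rw [map_sum]
      refine Finset.sum_congr rfl fun o _ => ?_
      have : (MonoidAlgebra.single (w o) (g o) : MonoidAlgebra (ZMod p) M) =
          g o • MonoidAlgebra.single (w o) 1 := by
        rw [MonoidAlgebra.smul_single, smul_eq_mul, mul_one]
      rw [this]
      rfl
    rw [h3, Ideal.Quotient.eq_zero_iff_mem] at h1
    obtain ⟨c, hc⟩ := mem_I0 z hz h1
    intro o
    have h4 := congrArg (fun f => f.coeff (w o)) hc
    simp only [MonoidAlgebra.coeff_sum, MonoidAlgebra.coeff_single, Finsupp.coe_finsetSum,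
      Finset.sum_apply] at h4
    rw [Finset.sum_eq_single o] at h4
    · rw [Finsupp.single_eq_same, Finsupp.single_eq_of_ne (hwz o)] at h4
      exact h4
    · intro o' _ hne
      exact Finsupp.single_eq_of_ne (fun h => hne (hw h.symm))
    · intro h
      exact absurd (Finset.mem_univ o) h
  have hcard := hli.fintype_card_le_finrank
  rw [Fintype.card_option] at hcard
  have hq := Submodule.finrank_quotient_add_finrank (Z.restrictScalars (ZMod p))
  have hA := finrank_A_le (p := p) z
  have hTc : Fintype.card T = T.ncard := by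
    rw [← Nat.card_eq_fintype_card]
    rfl
  have hN : {y : M | y ≠ 1 ∧ y ≠ z}.ncard + 2 = Nat.card M := by
    have h5 : {y : M | y ≠ 1 ∧ y ≠ z} = ({1, z} : Set M)ᶜ := by
      ext y; simp [not_or]
    have h6 := Set.ncard_add_ncard_compl ({1, z} : Set M)
    rw [Set.ncard_pair h1z] at h6
    rw [h5]; omega
  rw [← hTc]
  have hmul : p * (Fintype.card T + 1) ≤ p * finrank (ZMod p) (Alg z p ⧸ Z.restrictScalars (ZMod p)) :=
    Nat.mul_le_mul_left p hcard
  rw [← hq] at hmain
  nlinarith [hmain, hmul, hA, hN, hq]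

theorem monForm_mul {m n : ℕ} (hm : MonForm m) (hn : MonForm n) : MonForm (m * n) := by
  intro M _ _ z hz hnil
  classical
  by_cases h1z : (1 : M) = z
  · have : {y : M | y ≠ 1 ∧ y ≠ z ∧ ∃ x : M, x ^ (m * n) = y} = ∅ := by
      ext y
      simp only [Set.mem_ofPred_eq, Set.mem_empty_iff_false, iff_false, not_and]
      intro hy _
      exact absurd (by rw [← one_mul y, h1z, hz]) hy
    rw [this]; simp
  by_cases hm0 : m = 0
  · subst hm0; simp
  have hzm : z ^ m = z := by
    obtain ⟨k, rfl⟩ := Nat.exists_eq_succ_of_ne_zero hm0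
    rw [pow_succ']
    exact hz _
  let K : Submonoid M := MonoidHom.mrange (powMonoidHom m : M →* M)
  let zK : K := ⟨z, ⟨z, hzm⟩⟩
  have h1 := hm M z hz hnil
  have h2 := hn K zK (fun x => Subtype.ext (hz x)) (by
    intro x hx
    obtain ⟨k, hk⟩ := hnil (x : M) (fun h => hx (Subtype.ext h))
    exact ⟨k, Subtype.ext hk⟩)
  have e1 : {y : K | y ≠ 1 ∧ y ≠ zK ∧ ∃ x : K, x ^ n = y}.ncard =
      {y : M | y ≠ 1 ∧ y ≠ z ∧ ∃ x : M, x ^ (m * n) = y}.ncard := by
    rw [← Set.ncard_image_of_injective _ (Subtype.val_injective (p := fun x => x ∈ K))]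
    congr 1
    ext y
    constructor
    · rintro ⟨⟨y', hy'⟩, ⟨ha, hb, ⟨x, hx⟩⟩, rfl⟩
      refine ⟨fun h => ha (Subtype.ext h), fun h => hb (Subtype.ext h), ?_⟩
      obtain ⟨⟨x', ⟨t, ht⟩⟩, hx'⟩ : ∃ q : K, q = x := ⟨x, rfl⟩
      refine ⟨t, ?_⟩
      have h3 : ((x : K) : M) = t ^ m := by
        rw [← hx']
        exact ht.symm
      have h4 := congrArg Subtype.val hx
      rw [pow_mul, ← h3]
      exact h4
    · rintro ⟨ha, hb, ⟨x, hx⟩⟩
      have hyK : y ∈ K := ⟨x ^ n, by
        show (x ^ n) ^ m = y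
        rw [← pow_mul, mul_comm, hx]⟩
      refine ⟨⟨y, hyK⟩, ⟨fun h => ha (congrArg Subtype.val h), fun h => hb (congrArg Subtype.val h),
        ⟨⟨x ^ m, ⟨x, rfl⟩⟩, Subtype.ext ?_⟩⟩, rfl⟩
      show (x ^ m) ^ n = y
      rw [← pow_mul, hx]
  have e2 : {y : K | y ≠ 1 ∧ y ≠ zK}.ncard = {y : M | y ≠ 1 ∧ y ≠ z ∧ ∃ x : M, x ^ m = y}.ncard := by
    rw [← Set.ncard_image_of_injective _ (Subtype.val_injective (p := fun x => x ∈ K))]
    congr 1
    ext y
    constructor
    · rintro ⟨⟨y', hy'⟩, ⟨ha, hb⟩, rfl⟩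
      exact ⟨fun h => ha (Subtype.ext h), fun h => hb (Subtype.ext h), hy'⟩
    · rintro ⟨ha, hb, hx⟩
      exact ⟨⟨y, hx⟩, ⟨fun h => ha (congrArg Subtype.val h), fun h => hb (congrArg Subtype.val h)⟩, rfl⟩
  rw [e1, e2] at h2
  calc m * n * _ = m * (n * _) := by rw [mul_assoc]
    _ ≤ _ := le_trans (Nat.mul_le_mul_left m h2) h1

theorem monForm_one : MonForm 1 := by
  intro M _ _ z hz hnil
  rw [one_mul]
  refine Set.ncard_le_ncard ?_ (Set.toFinite _)
  rintro y ⟨h1, h2, _⟩
  exact ⟨h1, h2⟩

theorem monForm_all (H : EggertHyp) (n : ℕ) (hn : 0 < n) : MonForm n := by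
  induction n using Nat.recOnMul with
  | zero => exact absurd hn (lt_irrefl _)
  | one => exact monForm_one
  | prime p hp =>
    have : Fact p.Prime := ⟨hp⟩
    exact monForm_prime H
  | mul a b ha hb =>
    exact monForm_mul (ha (Nat.pos_of_mul_pos_right hn)) (hb (Nat.pos_of_mul_pos_left hn))

end main

theorem one_or {S : Type} (x : WithOne S) : x = 1 ∨ ∃ a : S, x = (a : WithOne S) :=
  WithOne.cases_on x (Or.inl rfl) (fun a => Or.inr ⟨a, rfl⟩)

theorem flat_rep {S : Type} (k : ℕ) (a : S) :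
    List.flatMap (fun a : S => [(a : WithOne S)]) (List.replicate k a) =
      List.replicate k (a : WithOne S) := by
  induction k with
  | zero => rfl
  | succ n ih =>
    rw [List.replicate_succ, List.flatMap_cons, ih]
    rfl

/-- the frozen statement S02293 from the algebra statement -/
theorem frozen (H : EggertHyp) :
    ∀ (S : Type) [SemigroupWithZero S] [Finite S],
      (∀ a b : S, a * b = b * a) →
      (∃ k : ℕ, ∀ l : List S, l.length = k →
        (l.map (fun s => (s : WithOne S))).prod = ((0 : S) : WithOne S)) →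
      ∀ n : ℕ, 0 < n →
        n * {y : S | y ≠ 0 ∧ ∃ x : S, (x : WithOne S) ^ n = (y : WithOne S)}.ncard
          ≤ {y : S | y ≠ 0}.ncard := by
  intro S _ _ hcomm hnil n hn
  let _ : CommSemigroup S := { (inferInstance : Semigroup S) with mul_comm := hcomm }
  have : Finite (WithOne S) := inferInstanceAs (Finite (Option S))
  have hz : ∀ x : WithOne S, ((0 : S) : WithOne S) * x = ((0 : S) : WithOne S) := by
    intro x
    rcases one_or x with rfl | ⟨a, rfl⟩
    · exact mul_one _
    · rw [← WithOne.coe_mul]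
      exact congrArg _ (zero_mul a)
  have hnil' : ∀ x : WithOne S, x ≠ 1 → ∃ k : ℕ, x ^ k = ((0 : S) : WithOne S) := by
    intro x hx
    rcases one_or x with rfl | ⟨a, rfl⟩
    · exact absurd rfl hx
    · obtain ⟨k, hk⟩ := hnil
      refine ⟨k, ?_⟩
      have h := hk (List.replicate k a) (by simp)
      have e : (List.map (fun s : WithOne S => s) (do
          let a ← List.replicate k a
          pure (a : WithOne S))) = List.replicate k (a : WithOne S) := by
        simp only [List.map_id_fun', id_eq, List.pure_def, List.bind_eq_flatMap]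
        exact flat_rep k a
      rw [e, List.prod_replicate] at h
      exact h
  have h := monForm_all H n hn (WithOne S) ((0 : S) : WithOne S) hz hnil'
  have e1 : {y : WithOne S | y ≠ 1 ∧ y ≠ ((0 : S) : WithOne S) ∧ ∃ x : WithOne S, x ^ n = y} =
      (fun s : S => (s : WithOne S)) ''
        {y : S | y ≠ 0 ∧ ∃ x : S, (x : WithOne S) ^ n = (y : WithOne S)} := by
    ext y
    constructor
    · rintro ⟨h1, h2, x, hx⟩
      rcases one_or y with rfl | ⟨b, rfl⟩
      · exact absurd rfl h1
      · refine ⟨b, ⟨fun h => h2 (by rw [h]), ?_⟩, rfl⟩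
        rcases one_or x with rfl | ⟨a, rfl⟩
        · rw [one_pow] at hx; exact absurd hx.symm h1
        · exact ⟨a, hx⟩
    · rintro ⟨b, ⟨h1, x, hx⟩, rfl⟩
      exact ⟨WithOne.coe_ne_one, fun h => h1 (WithOne.coe_inj.mp h), x, hx⟩
  have e2 : {y : WithOne S | y ≠ 1 ∧ y ≠ ((0 : S) : WithOne S)} =
      (fun s : S => (s : WithOne S)) '' {y : S | y ≠ 0} := by
    ext y
    constructor
    · rintro ⟨h1, h2⟩
      rcases one_or y with rfl | ⟨b, rfl⟩
      · exact absurd rfl h1
      · exact ⟨b, fun h => h2 (by rw [h]), rfl⟩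
    · rintro ⟨b, h1, rfl⟩
      exact ⟨WithOne.coe_ne_one, fun h => h1 (WithOne.coe_inj.mp h)⟩
  have hinj : Function.Injective (fun s : S => (s : WithOne S)) := WithOne.coe_injective
  rw [e1, e2, Set.ncard_image_of_injective _ hinj, Set.ncard_image_of_injective _ hinj] at h
  exact h

end Pool.Agent.Helper82.Egg
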